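import Mathlib
import Pool.Agent.U792.SU.Fin

/-!
# `x ^ n + y ^ n = c z ^ r` with a free coefficient `c` and `n ≡ 1` modulo `r`

Let `r ≥ 3` be prime and `n > 1` odd with `n ≡ 1` modulo `r`. Let `x`, `y` be nonzero coprime integers with
`x ^ n + y ^ n = c z ^ r`, `z ≠ 0` prime to `n`, where `c ≠ 0` is any integer with
`gcd (n, l (l - 1)) = 1` for all its prime factors `l`. For a finite set `S` of primes and `S`-unit coefficients
`c` this holds, for instance, for all primes `n > max S`. If `x` or `y` is `± d e`, where no prime factor of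
`d` is `0` or `1` modulo `r`, then `max (|x|, |y|) ^ (1/2 - 1/r) ≤ 32 r e`.

The bound depends neither on `c` and `S` nor on `n` and `z`. So for every `r` the equations for all `n`, all `S`
and all `c` together have only finitely many pairs of bases `(x, y)` in which `x` or `y` has no prime
factor `0` or `1` modulo `r`; for instance this is so if `|x|` is a power of `2` (or `1`).

Proof. The primes of `c` divide `x + y`, hence `(x ^ n + y ^ n)/(x + y) = f ^ r`. Let `t = y / (x + y)` and
`K = (n - 1) / r`. At the primes dividing `d` (`d` a divisor of `y`) the `r`-th root of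
`f ^ r = x ^ (r K) (1 - t)` modulo `y ^ n` is unique, hence `f = x ^ K (1 - t) ^ (1/r)`, and if `y` is small in
comparison to `x` this is nearly true at the real place too. The Padé approximants to `(1 - t) ^ (1/r)` of
degree about `n / 2` give a nonzero integer which is divisible by `d ^ (n - 2)` at least and not much larger than
`x ^ (n / 2 + K)`. No power of an unknown number occurs as a coefficient, therefore `c` plays no role;
for `c = 1` the equation (for all `n` and `r`) is treated in `MP_509488_nt.EqualExponentsSplitPart`, where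
`x + y` is an `r`-th power, which is not the case here.
-/

set_option autoImplicit false

namespace Pool.Agent.Results.MP_be1fae_nt.FreeCoefficient

theorem result (n r : ℕ) (hr : r.Prime) (hr3 : 3 ≤ r) (hn : Odd n) (hn1 : 1 < n)
    (hnr : n ≡ 1 [MOD r]) (x y z c : ℤ) (hx : x ≠ 0) (hy : y ≠ 0) (hz : z ≠ 0) (hc : c ≠ 0)
    (hxy : IsCoprime x y) (hnz : IsCoprime (n : ℤ) z)
    (hcn : ∀ l : ℕ, l.Prime → (l : ℤ) ∣ c → Nat.Coprime n (l * (l - 1)))
    (h : x ^ n + y ^ n = c * z ^ r) (d e : ℕ)
    (hd : ∀ l : ℕ, l.Prime → l ∣ d → ¬ l ≡ 0 [MOD r] ∧ ¬ l ≡ 1 [MOD r])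
    (hde : x.natAbs = d * e ∨ y.natAbs = d * e) :
    ((max x.natAbs y.natAbs : ℕ) : ℝ) ^ ((1 : ℝ) / 2 - 1 / r) ≤ 32 * r * e :=
  Pool.Agent.U792.SU.final hr hr3 hn hn1 hnr hx hy hc hz hxy hnz hcn h hd hde

end Pool.Agent.Results.MP_be1fae_nt.FreeCoefficient
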