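import Pool.Agent.U449.BV.F
import Pool.Agent.Results.MP_be1fae_nt.WindowsWithoutSolutions

/-!
# No solutions of the generalised Fermat equation near polynomials in two variables on arbitrary sets

A solution `a x ^ p + b y ^ q = c z ^ r` with coefficients composed of primes of `S` is called reduced if no prime of `S`
divides `x y z` and `|x|`, `|y|`, `|z|` are `1` or no perfect powers; every solution becomes reduced if the primes of `S`
in the bases are moved to the coefficients and perfect powers to the exponents (which become larger).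

Let `0 ≤ κ < e ≤ 1`. If `2 ∉ S`, there is `R` (depending on `S` and `e - κ`) with the following property. Let `e < δ ≤ 1`, let
`f(x, y)` be an integer polynomial with a monomial which contains both variables, `A`, `B` ARBITRARY finite sets of at least
`X ^ δ` integers, and `g`, `h` ARBITRARY real functions such that `|f(a, b) + g(a) + h(b)| ≤ X` on `A × B`. For all the pairs
`(a, b)`, apart from a proportion of at most `X ^ (-ρ)`, there is NO reduced solution with two exponents `≥ R` and
`|max (|x|, |y|, |z|) - (f(a, b) + g(a) + h(b))| ≤ X ^ κ`. If `e > 1/3 + κ`, there is, for every `S`, such an `R` for the windows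
`||x y z| - (f(a, b) + g(a) + h(b))| ≤ X ^ κ`. The same holds for the values `F(a, b)` of all functions of two variables with few
coincidences (`Rare`).

Since `A`, `B`, `g` and `h` are arbitrary, the values have no arithmetic structure, and a value can be taken by very many pairs. So
the number of the solutions (starting theorem `AllSolutionsByBases`) does not give the result directly. Proof: the inequality
of Cauchy and Schwarz; for most pairs `a, a'` the difference `F(a, b) - F(a', b)` is small for few `b` (`Pool.Agent.U449.BV`).
-/

set_option autoImplicit false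

open Finset

namespace Pool.Agent.Results.MP_be1fae_nt.MixedPolynomials

open Pool.Agent.U449.BV (Rare OnProducts on_products_nat polys)
open AllSolutionsByBases (Solution TwoLarge ByBases ByProduct Bases)
open WindowsWithoutSolutions (Reduced Val card_val)

/-- There is no reduced `S`-solution `a x ^ p + b y ^ q = c z ^ r` with at least two exponents `≥ R` and
`|max (|x|, |y|, |z|) - v| ≤ W`. -/
def NearMax (S : Finset ℕ) (R : ℕ) (W v : ℝ) : Prop :=
  ¬ ∃ (a b c x y z : ℤ) (p q r : ℕ), Reduced S R a b c x y z p q r ∧
    |((max (max x.natAbs y.natAbs) z.natAbs : ℕ) : ℝ) - v| ≤ W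

/-- There is no reduced `S`-solution `a x ^ p + b y ^ q = c z ^ r` with at least two exponents `≥ R` and
`||x y z| - v| ≤ W`. -/
def NearProduct (S : Finset ℕ) (R : ℕ) (W v : ℝ) : Prop :=
  ¬ ∃ (a b c x y z : ℤ) (p q r : ℕ), Reduced S R a b c x y z p q r ∧ |(((x * y * z).natAbs : ℕ) : ℝ) - v| ≤ W

/-- **Theorem.** Let `S` be a finite set, `0 ≤ κ < e`. (1) If `2 ∉ S` there is `R` such that the property `NearMax`, with windows
of length `X ^ κ`, holds for almost all values of functions of two variables with few coincidences, on arbitrary finite sets of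
at least `X ^ δ` elements, `e < δ ≤ 1` (`OnProducts`). (2) If `1/3 + κ < e` there is such an `R` for every `S` and the property
`NearProduct`. (3) Coincidences are rare for `f(a, b) + g(a) + h(b)`, where `f` is any integer polynomial with a monomial which
contains both variables, and `g` and `h` are arbitrary real functions, on arbitrary finite sets of integers. -/
theorem result :
    (∀ (S : Finset ℕ) (e κ : ℝ), 0 ≤ κ →
      (2 ∉ S → κ < e → ∃ R : ℕ, OnProducts e κ (NearMax S R)) ∧
      (1 / 3 + κ < e → ∃ R : ℕ, OnProducts e κ (NearProduct S R))) ∧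
    ∀ (d : ℕ) (f : MvPolynomial (Fin 2) ℤ), f.totalDegree ≤ d → (∃ m ∈ f.support, m 0 ≠ 0 ∧ m 1 ≠ 0) →
      ∀ (g h : ℤ → ℝ) (A B : Finset ℤ),
        Rare d A B (fun a b => ((MvPolynomial.eval ![a, b] f : ℤ) : ℝ) + g a + h b) := by
  classical
  refine ⟨fun S e κ hκ => ⟨fun h2 he => ?_, fun he => ?_⟩, polys⟩
  · obtain ⟨R, C, hC, h⟩ := AllSolutionsByBases.result.2.1 S (e - κ) h2 (by linarith)
    refine ⟨R, ?_⟩
    have hK := on_products_nat (Val S R (fun x y z => max (max x y) z))
      (s := e - κ) (κ := κ) (by linarith) hκ (fun ε hε => by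
        refine ⟨C, fun X hX => ?_⟩
        have hX1 : (1 : ℝ) ≤ X := by exact_mod_cast hX
        obtain ⟨h5, h6⟩ := h X hX1
        have h7 := card_val S R (fun x y z => max (max x y) z) X (ByBases S R X) h5 (by
          intro a b c x y z p q r hred hle
          have hb : ∀ u : ℤ, u.natAbs ≤ X → |(u : ℝ)| ≤ X := by
            intro u hu
            have h8 : ((u.natAbs : ℕ) : ℝ) ≤ X := by exact_mod_cast hu
            rwa [Nat.cast_natAbs, Int.cast_abs] at h8
          have hle' : max (max x.natAbs y.natAbs) z.natAbs ≤ X := hle
          rw [max_le_iff, max_le_iff] at hle'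
          exact ⟨a, b, c, x, y, z, p, q, r, hred.1, rfl, hred.2.1, hred.2.2.2.2.2.2,
            hb x hle'.1.1, hb y hle'.1.2, hb z hle'.2⟩)
        have h9 : (((Ioc 0 X).filter (fun t => t ∈ Val S R (fun x y z => max (max x y) z))).card : ℝ) ≤
            ((ByBases S R X).ncard : ℝ) := by exact_mod_cast h7
        refine le_trans (le_of_eq ?_) (h9.trans (h6.trans ?_))
        · congr!
        · apply mul_le_mul_of_nonneg_left _ hC.le
          apply Real.rpow_le_rpow_of_exponent_le hX1
          linarith)
    rw [sub_add_cancel] at hK
    refine hK.mono fun W v _ hg hex => ?_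
    obtain ⟨a, b, c, x, y, z, p, q, r, hred, e3⟩ := hex
    exact (hg _ e3).2 ⟨a, b, c, x, y, z, p, q, r, hred, rfl⟩
  · obtain ⟨R, C, hC, h⟩ := AllSolutionsByBases.result.2.2 S (e - κ - 1 / 3) (by linarith)
    refine ⟨R, ?_⟩
    have hK := on_products_nat (Val S R (fun x y z => x * y * z))
      (s := e - κ) (κ := κ) (by linarith) hκ (fun ε hε => by
        refine ⟨C, fun X hX => ?_⟩
        have hX1 : (1 : ℝ) ≤ X := by exact_mod_cast hX
        obtain ⟨h5, h6⟩ := h X hX1
        have h7 := card_val S R (fun x y z => x * y * z) X (ByProduct S R X) h5 (by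
          intro a b c x y z p q r hred hle
          refine ⟨a, b, c, x, y, z, p, q, r, hred.1, rfl, hred.2.1, hred.2.2.2.2.2.2, ?_⟩
          have h8 : ((x.natAbs * y.natAbs * z.natAbs : ℕ) : ℝ) ≤ X := by exact_mod_cast hle
          rw [← Int.natAbs_mul, ← Int.natAbs_mul, Nat.cast_natAbs, Int.cast_abs] at h8
          exact h8)
        have h9 : (((Ioc 0 X).filter (fun t => t ∈ Val S R (fun x y z => x * y * z))).card : ℝ) ≤
            ((ByProduct S R X).ncard : ℝ) := by exact_mod_cast h7
        refine le_trans (le_of_eq ?_) (h9.trans (h6.trans ?_))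
        · congr!
        · apply mul_le_mul_of_nonneg_left _ hC.le
          apply Real.rpow_le_rpow_of_exponent_le hX1
          linarith)
    rw [sub_add_cancel] at hK
    refine hK.mono fun W v _ hg hex => ?_
    obtain ⟨a, b, c, x, y, z, p, q, r, hred, e3⟩ := hex
    refine (hg _ e3).2 ⟨a, b, c, x, y, z, p, q, r, hred, ?_⟩
    rw [Int.natAbs_mul, Int.natAbs_mul]

end Pool.Agent.Results.MP_be1fae_nt.MixedPolynomials
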