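import Pool.Agent.U405.RS.F
import Pool.Agent.U405.RS.F3
import Pool.Agent.Results.MP_be1fae_nt.WindowsWithoutSolutions

/-!
# Solutions of the generalised Fermat equation with bases near values of `f` at thin sets of arguments

Let `f` be a positive multiplicative function of at most polynomial growth which for each `a ≥ 1` is injective at the powers
`p ^ a` of the large primes and at most `M p ^ a` there; for example Euler's function or the sum of the divisors. Let `S` be a finite set, `α > 0`, `d ≥ 1` and `0 ≤ θ < ρ`. (1) If `2 ∉ S`, there is `R`, depending only on `S`, `d` and `ρ - θ`, such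
that there is NO reduced `S`-solution `a x ^ p + b y ^ q = c z ^ r` with at least two exponents `≥ R` and
`|max (|x|, |y|, |z|) - α f(v)^d| ≤ f(v)^θ`. (2) If `d / 3 + θ < ρ`, there is such an `R` for every `S` and the windows
`||x y z| - α f(v)^d| ≤ f(v)^θ`. Both for almost all `v` (with a saving of any power of the logarithm) in each of these sets:

* the values of any integer polynomial without repeated roots, of degree `< 1 / ρ`;
* the shifted primes `p + a`, `a` any integer, if `ρ < 1`;
* the intervals `(x, x + y]`, `x^τ ≤ y ≤ x`, for every `τ > ρ`, `τ ≤ 1`.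

For instance, for every polynomial `P` without repeated roots there is `R` such that for almost all `m` no reduced `S`-solution
with two exponents `≥ R` has the largest base `φ(P(m))`.

Proof. Own tool `Pool.Agent.U405.RS`: let `S` be a set of at least `N^(θ + δ)` integers up to `N` with at most
`B g^ω(k) |S| / k` multiples of `k` for every `k ≤ N^δ`, and let `W` have at most `C X^θ` elements up to `X`. Then `f(m) ∈ W` for at
most `|S| / (log N)^U` of the `m` in `S`. For this write `m = k w` with `k` composed of the primes `≤ z = N^(1 / J)`, `J` a small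
multiple of `log log N`. By Rankin's method with the weights `g^ω(k)` one has `k ≤ N^η` for most `m`; and `w` has at most `J`
prime factors and exponents `≤ J`, so that `w` is determined by `f(w)` up to `(J τ(f(w)) + 1)^J = N^o(1)` possibilities. The three
kinds of sets satisfy the hypothesis: for polynomials because `P` has at most `g` zeros modulo every prime power (lifting of
zeros by the identity `U P + V P' = R`), for shifted primes by the Brun-Titchmarsh inequality (library). The bases of the
solutions are counted by the starting theorem `AllSolutionsByBases` of this problem.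
-/

set_option autoImplicit false

namespace Pool.Agent.Results.MP_be1fae_nt.SparseArguments

open Pool.Agent.N733.TG (Expanding expanding_pow)
open Pool.Agent.U405.RS (PM Sparse sparse_win examples)
open AllSolutionsByBases (Solution TwoLarge ByBases ByProduct Bases)
open WindowsWithoutSolutions (Reduced Val card_val)

/-- no reduced `S`-solution with at least two exponents `≥ R` has `|max (|x|, |y|, |z|) - G v| ≤ v ^ θ` -/
def NoMax (S : Finset ℕ) (R : ℕ) (G : ℕ → ℝ) (θ : ℝ) (v : ℕ) : Prop :=
  ∀ (a b c x y z : ℤ) (p q r : ℕ), Reduced S R a b c x y z p q r →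
    ¬ |((max (max x.natAbs y.natAbs) z.natAbs : ℕ) : ℝ) - G v| ≤ (v : ℝ) ^ θ

/-- no reduced `S`-solution with at least two exponents `≥ R` has `||x y z| - G v| ≤ v ^ θ` -/
def NoProduct (S : Finset ℕ) (R : ℕ) (G : ℕ → ℝ) (θ : ℝ) (v : ℕ) : Prop :=
  ∀ (a b c x y z : ℤ) (p q r : ℕ), Reduced S R a b c x y z p q r →
    ¬ |(((x * y * z).natAbs : ℕ) : ℝ) - G v| ≤ (v : ℝ) ^ θ

theorem reduced_pos {S : Finset ℕ} {R : ℕ} {a b c x y z : ℤ} {p q r : ℕ} (h : Reduced S R a b c x y z p q r) :
    x ≠ 0 ∧ y ≠ 0 ∧ z ≠ 0 := by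
  obtain ⟨h1, -⟩ := h
  exact ⟨h1.2.2.2.2.1, h1.2.2.2.2.2.1, h1.2.2.2.2.2.2.1⟩

/-- **No solutions near `G (f v)` for the `v` in thin sets.** Let `S` be a finite set, `d ≥ 1` and `0 ≤ θ < ρ`. (1) If `2 ∉ S`
there is `R`, depending only on `S`, `d`, `θ` and `ρ`, such that for all `f` in the class `PM`, all `G` with steps `≥ const > 0` and
growth at most `v^d` and all `U` the property that there is no reduced `S`-solution `a x ^ p + b y ^ q = c z ^ r` with at least
two exponents `≥ R` and `|max (|x|, |y|, |z|) - G v| ≤ v^θ` holds in the sense `Sparse ρ f`. (2) If `d / 3 + θ < ρ` there is such an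
`R` for every `S` and the windows `||x y z| - G v| ≤ v^θ`.
(`Sparse ρ f`: with a saving of `(log x)^U` it holds at `f v` for almost all `v` among the positive values of every integer
polynomial without repeated roots of degree `< 1 / ρ`; among the shifted primes `p + a` for every `a`, if `ρ < 1`; and in all
intervals `(x, x + y]`, `x^τ ≤ y ≤ x`, `ρ < τ ≤ 1`.) Euler's function and the sum of the divisors are in the class `PM`, and
`α v^d` with `α > 0`, `d ≥ 1` is an example of `G`. -/
theorem result :
    (∀ (S : Finset ℕ) (d θ ρ : ℝ), 1 ≤ d → 0 ≤ θ →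
      (2 ∉ S → θ < ρ → ∃ R : ℕ, ∀ f : ℕ → ℕ, PM f → ∀ G : ℕ → ℝ, Expanding G d → ∀ U : ℕ,
        Sparse ρ f (NoMax S R G θ) U) ∧
      (d / 3 + θ < ρ → ∃ R : ℕ, ∀ f : ℕ → ℕ, PM f → ∀ G : ℕ → ℝ, Expanding G d → ∀ U : ℕ,
        Sparse ρ f (NoProduct S R G θ) U)) ∧
    (PM Nat.totient ∧ PM (fun m => ∑ d ∈ m.divisors, d) ∧ PM (fun m => m)) ∧
    ∀ α d : ℝ, 0 < α → 1 ≤ d → Expanding (fun v => α * (v : ℝ) ^ d) d := by
  classical
  refine ⟨fun S d θ ρ hd hθ => ⟨fun h2 hθ1 => ?_, fun h1 => ?_⟩, examples, fun α d hα hd => expanding_pow hα hd⟩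
  · have hδ0 : 0 < (ρ - θ) / d := div_pos (by linarith) (by linarith)
    have hδd : d * ((ρ - θ) / d) + θ = ρ := by field_simp; ring
    obtain ⟨R, C, hC, h⟩ := AllSolutionsByBases.result.2.1 S ((ρ - θ) / d) h2 hδ0
    refine ⟨R, fun f hf G hG U => ?_⟩
    rw [← hδd]
    refine (sparse_win (Val S R (fun x y z => max (max x y) z)) hf hG
      (s := (ρ - θ) / d) (κ := θ) hδ0.le hθ (fun ε hε => ?_) U).imp
      (fun v hv a b c x y z p q r hred hw => hv _ ?_ ⟨a, b, c, x, y, z, p, q, r, hred, rfl⟩ hw)
    · refine ⟨C, fun X hX => ?_⟩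
      have hX1 : (1 : ℝ) ≤ X := by exact_mod_cast hX
      obtain ⟨h5, h6⟩ := h X hX1
      have h7 := card_val S R (fun x y z => max (max x y) z) X (ByBases S R X) h5 (by
        intro a b c x y z p q r hred hle
        have hb : ∀ u : ℤ, u.natAbs ≤ X → |(u : ℝ)| ≤ X := by
          intro u hu
          have h8 : ((u.natAbs : ℕ) : ℝ) ≤ X := by exact_mod_cast hu
          rwa [Nat.cast_natAbs, Int.cast_abs] at h8
        have hle' : max (max x.natAbs y.natAbs) z.natAbs ≤ X := hle
        rw [max_le_iff, max_le_iff] at hle'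
        exact ⟨a, b, c, x, y, z, p, q, r, hred.1, rfl, hred.2.1, hred.2.2.2.2.2.2,
          hb x hle'.1.1, hb y hle'.1.2, hb z hle'.2⟩)
      have h9 : (((Finset.Ioc 0 X).filter (fun t => t ∈ Val S R (fun x y z => max (max x y) z))).card : ℝ) ≤
          ((ByBases S R X).ncard : ℝ) := by exact_mod_cast h7
      refine le_trans (le_of_eq (by congr!)) (h9.trans (h6.trans ?_))
      apply mul_le_mul_of_nonneg_left _ hC.le
      apply Real.rpow_le_rpow_of_exponent_le hX1
      linarith
    · have h3 := (reduced_pos hred).1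
      have h4 : 0 < x.natAbs := Int.natAbs_pos.2 h3
      exact h4.trans_le ((le_max_left _ _).trans (le_max_left _ _))
  · have hδ0 : 0 < (ρ - θ - d / 3) / d := div_pos (by linarith) (by linarith)
    have hδd : d * (1 / 3 + (ρ - θ - d / 3) / d) + θ = ρ := by field_simp; ring
    obtain ⟨R, C, hC, h⟩ := AllSolutionsByBases.result.2.2 S ((ρ - θ - d / 3) / d) hδ0
    refine ⟨R, fun f hf G hG U => ?_⟩
    rw [← hδd]
    refine (sparse_win (Val S R (fun x y z => x * y * z)) hf hG
      (s := 1 / 3 + (ρ - θ - d / 3) / d) (κ := θ) (by linarith) hθ (fun ε hε => ?_) U).imp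
      (fun v hv a b c x y z p q r hred hw => hv _ ?_ ⟨a, b, c, x, y, z, p, q, r, hred, ?_⟩ hw)
    · refine ⟨C, fun X hX => ?_⟩
      have hX1 : (1 : ℝ) ≤ X := by exact_mod_cast hX
      obtain ⟨h5, h6⟩ := h X hX1
      have h7 := card_val S R (fun x y z => x * y * z) X (ByProduct S R X) h5 (by
        intro a b c x y z p q r hred hle
        refine ⟨a, b, c, x, y, z, p, q, r, hred.1, rfl, hred.2.1, hred.2.2.2.2.2.2, ?_⟩
        have h8 : ((x.natAbs * y.natAbs * z.natAbs : ℕ) : ℝ) ≤ X := by exact_mod_cast hle
        rw [← Int.natAbs_mul, ← Int.natAbs_mul, Nat.cast_natAbs, Int.cast_abs] at h8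
        exact h8)
      have h9 : (((Finset.Ioc 0 X).filter (fun t => t ∈ Val S R (fun x y z => x * y * z))).card : ℝ) ≤
          ((ByProduct S R X).ncard : ℝ) := by exact_mod_cast h7
      refine le_trans (le_of_eq (by congr!)) (h9.trans (h6.trans ?_))
      apply mul_le_mul_of_nonneg_left _ hC.le
      apply Real.rpow_le_rpow_of_exponent_le hX1
      linarith
    · obtain ⟨h3, h4, h5⟩ := reduced_pos hred
      exact Int.natAbs_pos.2 (mul_ne_zero (mul_ne_zero h3 h4) h5)
    · rw [Int.natAbs_mul, Int.natAbs_mul]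

end Pool.Agent.Results.MP_be1fae_nt.SparseArguments
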