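import Mathlib
import Pool.Agent.U792.SW.GenF

/-!
The equation `X ^ p + Y ^ p = c z ^ n` (also `X ^ p - Y ^ p = c z ^ n`, since `X`, `Y` may be
negative) for a prime `p ≥ 5`, all `n ≥ 2` prime to `2 p`, and ALL coefficients `c` without prime
factors `≡ 1` modulo `p`. For a finite set `S` of primes this covers every `S`-unit `c` as soon as
`p > max S`. All results are uniform in `c` and `z`; they are proved without a condition on the class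
number, and in a stronger form if the minus part of the class group of `ℚ(ζ_p)` has no elements of
order dividing `n`.

Part 1 (bounds; `E = max 1 (⌊p / 3⌋ - ⌊p / 4⌋)`, which is `1` for `p ≤ 17` and about `p / 12` in
general, or `E = 1` under the condition on the class group). Call `Q` free if `n`-th roots are unique
modulo `Q` in `ℤ[ζ_p]` by the orders of the residue fields (`Free` below). Free divisors `Q` of `X`,
`Y`, `X - Y` and (if `p` does not divide `Q`) `X + Y` satisfy `Q ^ n ≤ 2 ^ n (|X| + |Y|) ^ E`, and so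
do the free divisors of `c z ^ n` without prime factors `p` or `≡ 1` modulo `p`; if
`gcd (n, p - 1) = 1` and `p ^ (m + 2) ∣ c z ^ n` then `p ^ (m n) ≤ 2 ^ n (|X| + |Y|) ^ E`; if `n` is
prime and `n ^ (m + 1)` divides `X`, `Y`, `X - Y` or `X + Y` then
`n ^ (max (m, 1) n) ≤ 2 ^ n (|X| + |Y|) ^ E`. Exclusion of solutions: if `M ≥ (|X| + |Y|) / 2` is one
of `|X|`, `|Y|`, `|X - Y|`, `|X + Y|` and `M = Q m` with `Q` free (prime to `p` if `M = |X + Y|`) and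
`E ≤ n`, then `Q ^ (n - E) ≤ 2 ^ (n + E) m ^ E`; in particular, if `n > 3 E`, there is no solution
with `M ≥ 4` free.

Part 2 (Wieferich type, `n = q` prime). `q ∣ X` implies `q ^ 2 ∣ X`; `q ∣ Y` implies `q ^ 2 ∣ Y`; if
`q` does not divide `(p - 1) / 2`, or if `p ≤ 17`, or under the condition on the class group,
`q ∣ X - Y` implies `q ^ 2 ∣ X - Y` and `q ∣ X + Y` implies `q ^ 2 ∣ X + Y`; `q ∣ X + Y` implies
`q ^ q ∣ X + Y` if `q` does not divide `c`. If `q < p` then, for `p ≤ 17` or under the condition on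
the class group, `q ^ 2` divides one of `X`, `Y`, `X - Y`, `X + Y`, and `q ^ q ≤ 2 ^ q (|X| + |Y|)`.

Proof. `(X + ζ Y) = (ζ - 1) ^ d 𝔞 ^ n` (the primes of `c` do not divide `𝔞`), and the prime factors of
`𝔞` have degree one. For `S_a = {u mod p : (u mod p) + (a u mod p) < p}` the ideal `∏ σ_u⁻¹ 𝔞`,
`u ∈ S_a`, is principal, with a generator `g_a` such that `g_a ḡ_a = N 𝔞` (Jacobi sums
`J (χ, χ ^ a)`). Comparing `a = 1` with `a = 3` (`a = 2` for `p = 5`): for `T = S_1 \ S_a`, a set of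
at most `E` classes and of one class if `p ≤ 17`, the product over `T` of the conjugates of
`X + ζ Y`, times `g_a ^ n`, is the complex conjugate of this product times the `n`-th power of `g_1`
(up to a root of unity). Modulo divisors of `X`, `Y`, `X ± Y` the two conjugates agree up to roots of
unity; so do `g_a` and `g_1` modulo free divisors and modulo `q`; norms give part 1. Modulo `q ^ 2`
one gets part 2, where for `q < p` the Frobenius automorphism at `q` gives a congruence between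
polynomials in `ζ` of small degree, which implies `q ∣ X Y (X - Y) (X + Y)`.
-/

set_option autoImplicit false

namespace Pool.Agent.Results.MP_be1fae_nt.StickelbergerBounds

open NumberField Pool.Agent.U792.KU Pool.Agent.U792.SW

/-- There is no ideal class `C ≠ 1` of `ℚ(ζ_p)` with `C ^ n = 1` and `C * conj C = 1`; here `c` is
complex conjugation, the endomorphism which inverts the `p`-th roots of unity. -/
def NoMinusClass (p n : ℕ) : Prop :=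
  ∀ c : 𝓞 (CyclotomicField p ℚ) →+* 𝓞 (CyclotomicField p ℚ),
    (∀ x : 𝓞 (CyclotomicField p ℚ), x ^ p = 1 → c x * x = 1) →
    ∀ I : Ideal (𝓞 (CyclotomicField p ℚ)), I ≠ ⊥ → (I ^ n).IsPrincipal →
      (I * I.map c).IsPrincipal → I.IsPrincipal

/-- for every prime factor `l` of `Q` there is `f ≥ 1` with `gcd (n, l (l ^ f - 1)) = 1` such that
`l = p` or `l ^ f ≡ 1` modulo `p` -/
def Free (p n Q : ℕ) : Prop :=
  Q ≠ 0 ∧ ∀ l : ℕ, l.Prime → l ∣ Q →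
    ∃ f : ℕ, 0 < f ∧ (l = p ∨ l ^ f ≡ 1 [MOD p]) ∧ Nat.Coprime n (l * (l ^ f - 1))

theorem result (p n : ℕ) (hp : p.Prime) (hp5 : 5 ≤ p) (hn : 2 ≤ n) (hnp : Nat.Coprime n (2 * p))
    (X Y z c : ℤ) (hX : X ≠ 0) (hY : Y ≠ 0) (hXY1 : X ≠ Y) (hXY2 : X ≠ -Y)
    (hXY : IsCoprime X Y) (hc : ∀ l : ℕ, l.Prime → (l : ℤ) ∣ c → ¬ l ≡ 1 [MOD p])
    (h : X ^ p + Y ^ p = c * z ^ n) :
    (∀ E : ℕ, (E = max 1 (p / 3 - p / 4) ∨ (E = 1 ∧ NoMinusClass p n)) →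
      (∀ Q : ℕ, Free p n Q →
        ((Q : ℤ) ∣ X ∨ (Q : ℤ) ∣ Y ∨ (Q : ℤ) ∣ X - Y ∨ ((Q : ℤ) ∣ X + Y ∧ ¬ p ∣ Q)) →
        (Q : ℤ) ^ n ≤ 2 ^ n * (|X| + |Y|) ^ E) ∧
      (∀ R : ℕ, Free p n R → (∀ l : ℕ, l.Prime → l ∣ R → l ≠ p ∧ ¬ l ≡ 1 [MOD p]) →
        (R : ℤ) ∣ c * z ^ n → (R : ℤ) ^ n ≤ 2 ^ n * (|X| + |Y|) ^ E) ∧
      (∀ m : ℕ, (p : ℤ) ^ (m + 2) ∣ c * z ^ n → Nat.Coprime n (p - 1) →
        (p : ℤ) ^ (m * n) ≤ 2 ^ n * (|X| + |Y|) ^ E) ∧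
      (n.Prime → ∀ m : ℕ, ((n : ℤ) ^ (m + 1) ∣ X ∨ (n : ℤ) ^ (m + 1) ∣ Y ∨
          (n : ℤ) ^ (m + 1) ∣ X - Y ∨ (n : ℤ) ^ (m + 1) ∣ X + Y) →
        (n : ℤ) ^ (max m 1 * n) ≤ 2 ^ n * (|X| + |Y|) ^ E) ∧
      (∀ Q m : ℕ, Free p n Q → E ≤ n → |X| + |Y| ≤ 2 * ((Q * m : ℕ) : ℤ) →
        (((Q * m : ℕ) : ℤ) = |X| ∨ ((Q * m : ℕ) : ℤ) = |Y| ∨ ((Q * m : ℕ) : ℤ) = |X - Y| ∨
          (((Q * m : ℕ) : ℤ) = |X + Y| ∧ ¬ p ∣ Q)) →
        (Q : ℤ) ^ (n - E) ≤ 2 ^ (n + E) * (m : ℤ) ^ E) ∧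
      (∀ M : ℕ, Free p n M → 3 * E < n → 4 ≤ M → |X| + |Y| ≤ 2 * (M : ℤ) →
        (M : ℤ) ≠ |X| ∧ (M : ℤ) ≠ |Y| ∧ (M : ℤ) ≠ |X - Y| ∧ ((M : ℤ) = |X + Y| → p ∣ M))) ∧
    (n.Prime →
      ((n : ℤ) ∣ X → (n : ℤ) ^ 2 ∣ X) ∧ ((n : ℤ) ∣ Y → (n : ℤ) ^ 2 ∣ Y) ∧
      ((n : ℤ) ∣ X - Y → (¬ n ∣ (p - 1) / 2 ∨ p ≤ 17 ∨ NoMinusClass p n) →
        (n : ℤ) ^ 2 ∣ X - Y) ∧
      ((n : ℤ) ∣ X + Y → (¬ n ∣ (p - 1) / 2 ∨ p ≤ 17 ∨ NoMinusClass p n) →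
        (n : ℤ) ^ 2 ∣ X + Y) ∧
      ((n : ℤ) ∣ X + Y → ¬ (n : ℤ) ∣ c → (n : ℤ) ^ n ∣ X + Y) ∧
      (n < p → (p ≤ 17 ∨ NoMinusClass p n) →
        ((n : ℤ) ^ 2 ∣ X ∨ (n : ℤ) ^ 2 ∣ Y ∨ (n : ℤ) ^ 2 ∣ X - Y ∨ (n : ℤ) ^ 2 ∣ X + Y) ∧
        (n : ℤ) ^ n ≤ 2 ^ n * (|X| + |Y|))) := by
  have hF : Fact p.Prime := ⟨hp⟩
  have hCyc := instCyc p
  have hCM := inst (p := p) (by omega)
  have hζ : IsPrimitiveRoot (IsCyclotomicExtension.zeta p ℚ (CyclotomicField p ℚ)) p :=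
    IsCyclotomicExtension.zeta_spec p ℚ (CyclotomicField p ℚ)
  have hp2 : p ≠ 2 := by omega
  have hn0 : n ≠ 0 := by omega
  have hn2 : n ≠ 2 := by
    rintro rfl
    have h2 := Nat.Coprime.coprime_dvd_right (Dvd.intro _ rfl : 2 ∣ 2 * p) hnp
    norm_num at h2
  have hnp' : n ≠ p := by
    rintro rfl
    have h2 := Nat.Coprime.coprime_dvd_right (Dvd.intro_left _ rfl : n ∣ 2 * n) hnp
    rw [Nat.coprime_self] at h2
    omega
  have hs : X + Y ≠ 0 := fun h0 => hXY2 (by omega)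
  have hd : X - Y ≠ 0 := fun h0 => hXY1 (by omega)
  have hR1 := t_R1 p (CyclotomicField p ℚ)
  have hne : ∀ D : ℤ, IsD X Y D → D ≠ 0 := by
    rintro D (rfl | rfl | rfl | rfl) <;> assumption
  have isX : IsD X Y X := Or.inl rfl
  have isY : IsD X Y Y := Or.inr (Or.inl rfl)
  have isM : IsD X Y (X - Y) := Or.inr (Or.inr (Or.inl rfl))
  have isP : IsD X Y (X + Y) := Or.inr (Or.inr (Or.inr rfl))
  have hPw : Pw hζ n X Y := pw_of_eq hζ hp2 hXY hs hc h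
  have hPw' : Pw hζ n Y X := by
    refine pw_of_eq hζ hp2 (z := z) hXY.symm (by rwa [add_comm]) hc ?_
    rw [add_comm]
    exact h
  -- part 1
  have part1 : ∀ E : ℕ, (E = max 1 (p / 3 - p / 4) ∨ (E = 1 ∧ NoMinusClass p n)) →
      (∀ Q : ℕ, Free p n Q →
        ((Q : ℤ) ∣ X ∨ (Q : ℤ) ∣ Y ∨ (Q : ℤ) ∣ X - Y ∨ ((Q : ℤ) ∣ X + Y ∧ ¬ p ∣ Q)) →
        (Q : ℤ) ^ n ≤ 2 ^ n * (|X| + |Y|) ^ E) ∧
      (n.Prime → ∀ m : ℕ, ((n : ℤ) ^ (m + 1) ∣ X ∨ (n : ℤ) ^ (m + 1) ∣ Y ∨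
          (n : ℤ) ^ (m + 1) ∣ X - Y ∨ (n : ℤ) ^ (m + 1) ∣ X + Y) →
        (n : ℤ) ^ (max m 1 * n) ≤ 2 ^ n * (|X| + |Y|) ^ E) := by
    intro E hE
    have hrel := rel_genE hp5 hn0 hnp hX hY hXY1 hXY2 hXY hζ hPw hE
    refine ⟨?_, ?_⟩
    · intro Q hQ hD
      rcases hD with hD | hD | hD | ⟨hD, hpQ⟩
      · exact rel_free hR1 hζ hp2 hn0 hnp hXY hrel isX hX hQ.1 hQ.2 hD
          (fun h0 => absurd h0 (by omega))
      · exact rel_free hR1 hζ hp2 hn0 hnp hXY hrel isY hY hQ.1 hQ.2 hD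
          (fun h0 => absurd h0 (by omega))
      · exact rel_free hR1 hζ hp2 hn0 hnp hXY hrel isM hd hQ.1 hQ.2 hD
          (fun h0 => absurd h0 (by omega))
      · exact rel_free hR1 hζ hp2 hn0 hnp hXY hrel isP hs hQ.1 hQ.2 hD (fun _ => hpQ)
    · intro hnP m hm
      have key : ∀ D : ℤ, IsD X Y D → (n : ℤ) ^ (m + 1) ∣ D →
          (n : ℤ) ^ (max m 1 * n) ≤ 2 ^ n * (|X| + |Y|) ^ E := by
        intro D hD hmD
        have h1 := rel_q hζ hp2 hnP hn2 hnp' hXY hrel hD (hne D hD) hmD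
        rcases Nat.eq_zero_or_pos m with rfl | hm0
        · rw [show max 0 1 = 1 from rfl, one_mul]
          exact h1.1
        · rw [max_eq_left hm0, pow_mul]
          exact h1.2
      rcases hm with hm | hm | hm | hm
      · exact key X isX hm
      · exact key Y isY hm
      · exact key (X - Y) isM hm
      · exact key (X + Y) isP hm
  have part1e : ∀ E : ℕ, (E = max 1 (p / 3 - p / 4) ∨ (E = 1 ∧ NoMinusClass p n)) →
      ∀ Q m : ℕ, Free p n Q → E ≤ n → |X| + |Y| ≤ 2 * ((Q * m : ℕ) : ℤ) →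
        (((Q * m : ℕ) : ℤ) = |X| ∨ ((Q * m : ℕ) : ℤ) = |Y| ∨ ((Q * m : ℕ) : ℤ) = |X - Y| ∨
          (((Q * m : ℕ) : ℤ) = |X + Y| ∧ ¬ p ∣ Q)) →
        (Q : ℤ) ^ (n - E) ≤ 2 ^ (n + E) * (m : ℤ) ^ E := by
    intro E hE Q m hQ hEn hlarge hM
    have hdv : ∀ D : ℤ, ((Q * m : ℕ) : ℤ) = |D| → (Q : ℤ) ∣ D := by
      intro D hD
      rw [← dvd_abs, ← hD]
      push_cast
      exact dvd_mul_right _ _
    refine excl hEn hQ.1 (by positivity) hlarge ((part1 E hE).1 Q hQ ?_)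
    rcases hM with hM | hM | hM | ⟨hM, hpQ⟩
    · exact Or.inl (hdv _ hM)
    · exact Or.inr (Or.inl (hdv _ hM))
    · exact Or.inr (Or.inr (Or.inl (hdv _ hM)))
    · exact Or.inr (Or.inr (Or.inr ⟨hdv _ hM, hpQ⟩))
  refine ⟨fun E hE => ⟨(part1 E hE).1, ?_, ?_, (part1 E hE).2, part1e E hE, ?_⟩, fun hnP => ?_⟩
  · intro R hR hR2 hRz
    have h1 := dvd_sum_of_dvd hp hp2 hXY hs hR2 (by rw [h]; exact hRz)
    exact (part1 E hE).1 R hR (Or.inr (Or.inr (Or.inr ⟨h1, fun h3 => (hR2 p hp h3).1 rfl⟩)))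
  · intro m hpz hn1
    have h1 := p_dvd_sum hp hp2 hXY (k := m + 1) (by rw [h]; exact hpz)
    rw [pow_mul]
    exact rel_p hR1 hζ hp2 hn0 hnp hXY (rel_genE hp5 hn0 hnp hX hY hXY1 hXY2 hXY hζ hPw hE)
      hs hn1 h1
  · intro M hM hn3 hM4 hlarge
    have key : ¬ (((M * 1 : ℕ) : ℤ) = |X| ∨ ((M * 1 : ℕ) : ℤ) = |Y| ∨
        ((M * 1 : ℕ) : ℤ) = |X - Y| ∨ (((M * 1 : ℕ) : ℤ) = |X + Y| ∧ ¬ p ∣ M)) := by
      intro h0
      have h1 := part1e E hE M 1 hM (by omega) (by rwa [mul_one]) h0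
      rw [Nat.cast_one] at h1
      exact excl4 hn3 hM4 h1
    rw [mul_one] at key
    push Not at key
    exact ⟨key.1, key.2.1, key.2.2.1, key.2.2.2⟩
  have hwX : (n : ℤ) ∣ X → (n : ℤ) ^ 2 ∣ X :=
    beta_wiefC (t_A1 p _) (t_A2 p _) (t_B1 p _) (t_B2 p _) (t_N1 p _) (t_N3 p _) hζ hp5 hnP
      hn2 hnp' (X := Y) (Y := X) hY hX (Ne.symm hXY1) (fun h0 => hXY2 (by rw [h0, neg_neg]))
      hXY.symm hPw'
  have hwY : (n : ℤ) ∣ Y → (n : ℤ) ^ 2 ∣ Y :=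
    beta_wiefC (t_A1 p _) (t_A2 p _) (t_B1 p _) (t_B2 p _) (t_N1 p _) (t_N3 p _) hζ hp5 hnP
      hn2 hnp' hX hY hXY1 hXY2 hXY hPw
  have hwM : (n : ℤ) ∣ X - Y → (¬ n ∣ (p - 1) / 2 ∨ p ≤ 17 ∨ NoMinusClass p n) →
      (n : ℤ) ^ 2 ∣ X - Y := by
    intro h1 h2
    rcases h2 with h2 | h2
    · exact beta_wief_subC (t_A1 p _) (t_A2 p _) (t_B1 p _) (t_B2 p _) (t_N1 p _) (t_N4 p _) hζ hp5
        hnP hn2 hnp' hX hY hXY1 hXY2 hXY hPw h2 h1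
    · exact wrel_q hζ hp2 hnP hn2 hnp' hXY
        (wrel_gen hp5 hn0 hnp hX hY hXY1 hXY2 hXY hζ hPw h2) isM hd h1
  have hwP : (n : ℤ) ∣ X + Y → (¬ n ∣ (p - 1) / 2 ∨ p ≤ 17 ∨ NoMinusClass p n) →
      (n : ℤ) ^ 2 ∣ X + Y := by
    intro h1 h2
    rcases h2 with h2 | h2
    · exact beta_wief_addC (t_A1 p _) (t_A2 p _) (t_B1 p _) (t_B2 p _) (t_N1 p _) (t_N5 p _) hζ hp5
        hnP hn2 hnp' hX hY hXY1 hXY2 hXY hPw h2 h1
    · exact wrel_q hζ hp2 hnP hn2 hnp' hXY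
        (wrel_gen hp5 hn0 hnp hX hY hXY1 hXY2 hXY hζ hPw h2) isP hs h1
  refine ⟨hwX, hwY, hwM, hwP,
    fun h1 h2 => q_dvd_sum hp hp2 hXY h hnP hnp' h2 h1, ?_⟩
  intro hnp3 hmc
  have hw := wrel_gen hp5 hn0 hnp hX hY hXY1 hXY2 hXY hζ hPw hmc
  obtain ⟨D, hD, hnD⟩ := wrel_exists (t_G1 p _) (t_G2 p _ (t_E p _)) hζ hnP hn2 hnp3 hXY hs hw
  have hE1 : 1 = max 1 (p / 3 - p / 4) ∨ (1 = 1 ∧ NoMinusClass p n) := by
    rcases hmc with h17 | hm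
    · left
      clear hw hwM hwX hwY hwP part1e part1 hPw hPw' hR1 hζ hCM hCyc hF hnp hc h
      interval_cases p <;> first | (norm_num; done) | (exfalso; revert hp; norm_num; done)
    · exact Or.inr ⟨rfl, hm⟩
  have hb := (part1 1 hE1).2 hnP 0
  rw [zero_add, pow_one, show max 0 1 = 1 from rfl, one_mul, pow_one] at hb
  rcases hD with rfl | rfl | rfl | rfl
  · exact ⟨Or.inl (hwX hnD), hb (Or.inl hnD)⟩
  · exact ⟨Or.inr (Or.inl (hwY hnD)), hb (Or.inr (Or.inl hnD))⟩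
  · exact ⟨Or.inr (Or.inr (Or.inl (hwM hnD (Or.inr hmc)))), hb (Or.inr (Or.inr (Or.inl hnD)))⟩
  · exact ⟨Or.inr (Or.inr (Or.inr (hwP hnD (Or.inr hmc)))), hb (Or.inr (Or.inr (Or.inr hnD)))⟩

end Pool.Agent.Results.MP_be1fae_nt.StickelbergerBounds
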